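import Pool.Agent.Helper88.MW.Assembly

/-!
# Montgomery's conjecture on Weyl sums over `F_q[T]` for the exponents `k = p ^ j + 1`

`F` is a finite field with `q` elements and characteristic `p`.  The completion of `F(T)` at
infinity is the field of Laurent series in `1/T`; its element `∑ c_m (1/T)^m` is the Hahn series
with coefficients `c_m`, and has absolute value `q ^ (-m)` for the least `m` with `c_m ≠ 0`.

The analogue of `e(x)` is `x ↦ ψ(c_1)` for a nontrivial additive character `ψ` of `F`; the analogue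
of `n ≤ N` is `deg x < n`, with `N = q ^ n`; and `|g| = q ^ deg g`.
-/

set_option autoImplicit false

namespace Pool.Agent.Results.MP_3b0be2_nt.FunctionFields

open Polynomial

/-- The embedding of `F[T]` in the field of Laurent series in `1/T`. -/
noncomputable def emb (F : Type) [Field F] : F[X] →ₐ[F] LaurentSeries F :=
  Polynomial.aeval (HahnSeries.single (-1 : ℤ) (1 : F))

/-- The polynomial `c_0 + c_1 T + ⋯ + c_{n-1} T ^ (n - 1)`. -/
noncomputable def pol {F : Type} [Field F] {n : ℕ} (c : Fin n → F) : F[X] :=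
  ∑ i, C (c i) * X ^ (i : ℕ)

/-- The Weyl sum `∑_{deg x < n} ψ(res(α x ^ k + ξ_0 x + ξ_1 x ^ p + ⋯ + ξ_{m-1} x ^ (p ^ (m-1))))`,
where `res` is the coefficient of `1/T`.  For `m = 1` the phase is `α x ^ k + ξ_0 x`. -/
noncomputable def weylSum {F : Type} [Field F] [Fintype F] (ψ : AddChar F ℂ) (p k n m : ℕ)
    (α : LaurentSeries F) (ξ : ℕ → LaurentSeries F) : ℂ :=
  ∑ c : Fin n → F, ψ ((α * emb F (pol c) ^ k +
    ∑ i ∈ Finset.range m, ξ i * emb F (pol c) ^ (p ^ i)).coeff 1)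

/-- `|α - a/g| ≤ |g|⁻²`: the coefficient of `(1/T)^m` in `α - a/g` is zero for `m < 2 deg g`. -/
def Near {F : Type} [Field F] (α : LaurentSeries F) (a g : F[X]) : Prop :=
  ∀ m : ℤ, m < 2 * (g.natDegree : ℤ) → (α - emb F a / emb F g).coeff m = 0

/-- **Montgomery's conjecture over `F_q[T]` for `k = p ^ j + 1`**: with `N = q ^ n` and
`|g| = q ^ deg g ≤ N`, the Weyl sum is at most `C N |g|^(ε - 1/k)`; in particular it is at most
`C N^(1 + ε) (|g|⁻¹ + N⁻¹ + |g| N^(-k))^(1/k)`, which is hypothesis `H_k(1/k)`. -/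
theorem result (p : ℕ) [Fact p.Prime] (F : Type) [Field F] [Fintype F] [CharP F p]
    (ψ : AddChar F ℂ) (hψ : ψ ≠ 1) (j : ℕ) (hj : 1 ≤ j) (ε : ℝ) (hε : 0 < ε) :
    ∃ C : ℝ, ∀ (n m : ℕ) (α : LaurentSeries F) (ξ : ℕ → LaurentSeries F) (a g : F[X]),
      IsCoprime a g → g ≠ 0 → g.natDegree ≤ n → Near α a g →
      ∀ N G : ℝ, N = (Fintype.card F : ℝ) ^ n → G = (Fintype.card F : ℝ) ^ g.natDegree →
      ‖weylSum ψ p (p ^ j + 1) n m α ξ‖ ≤ C * N * G ^ (ε - 1 / ((p ^ j + 1 : ℕ) : ℝ)) ∧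
      ‖weylSum ψ p (p ^ j + 1) n m α ξ‖ ≤
        C * N ^ (1 + ε) * (1 / G + 1 / N + G / N ^ (p ^ j + 1)) ^ (1 / ((p ^ j + 1 : ℕ) : ℝ)) := by
  obtain ⟨C, hC0, hC⟩ := Pool.Agent.Helper88.MW.assembly p F j hj ψ hψ ε hε
  refine ⟨C, fun n m α ξ a g hag hg hgn hα N G hN hG => ?_⟩
  subst hN hG
  have h : ‖weylSum ψ p (p ^ j + 1) n m α ξ‖ ≤ C * (Fintype.card F : ℝ) ^ n *
      ((Fintype.card F : ℝ) ^ g.natDegree) ^ (ε - 1 / ((p ^ j + 1 : ℕ) : ℝ)) :=
    hC n m α ξ a g hag hg hgn hα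
  refine ⟨h, ?_⟩
  have hq : (1 : ℝ) ≤ Fintype.card F := by
    have : 0 < Fintype.card F := Fintype.card_pos
    exact_mod_cast this
  exact Pool.Agent.Helper88.MW.weaken (p ^ j + 1) (by positivity) ε _ hε hq n g.natDegree hgn C _
    hC0 h

end Pool.Agent.Results.MP_3b0be2_nt.FunctionFields
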